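import Mathlib
import Pool.Agent.H305R2.MertensD

set_option autoImplicit false

namespace Pool.Agent.H305R2

open Finset Filter Topology MeasureTheory Set

/-- the correction term of the Euler factor at a prime -/
noncomputable def kk (d : ℝ) (n : ℕ) : ℝ :=
  if n.Prime then -Real.log (1 - (n : ℝ) ^ (-(1 + d))) - (n : ℝ) ^ (-(1 + d)) else 0

lemma neg_log_sub_bound {x : ℝ} (_hx0 : 0 ≤ x) (hx : x ≤ 1 / 2) :
    0 ≤ -Real.log (1 - x) - x ∧ -Real.log (1 - x) - x ≤ x ^ 2 * 2 := by
  have h1 : 0 < 1 - x := by linarith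
  constructor
  · have := Real.log_le_sub_one_of_pos h1
    linarith
  · have := Real.one_sub_inv_le_log_of_pos h1
    have h2 : (1 - x)⁻¹ - 1 - x ≤ x ^ 2 * 2 := by
      have e : (1 - x)⁻¹ - 1 - x = x ^ 2 * (1 - x)⁻¹ := by
        field_simp
        ring
      rw [e]
      refine mul_le_mul_of_nonneg_left ?_ (by positivity)
      rw [inv_le_comm₀ h1 (by norm_num)]
      linarith
    linarith

lemma prime_rpow_le {d : ℝ} (hd : 0 ≤ d) {n : ℕ} (hn : n.Prime) :
    0 ≤ (n : ℝ) ^ (-(1 + d)) ∧ (n : ℝ) ^ (-(1 + d)) ≤ 1 / n ∧ (n : ℝ) ^ (-(1 + d)) ≤ 1 / 2 := by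
  have h2 : (2 : ℝ) ≤ n := by exact_mod_cast hn.two_le
  have h1 : (n : ℝ) ^ (-(1 + d)) ≤ 1 / n := by
    have : (n : ℝ) ^ (-(1 + d)) ≤ (n : ℝ) ^ (-1 : ℝ) :=
      Real.rpow_le_rpow_of_exponent_le (by linarith) (by linarith)
    rwa [Real.rpow_neg_one, ← one_div] at this
  refine ⟨by positivity, h1, h1.trans ?_⟩
  exact one_div_le_one_div_of_le (by norm_num) h2

lemma kk_bound {d : ℝ} (hd : 0 ≤ d) (n : ℕ) : ‖kk d n‖ ≤ 2 * (1 / (n : ℝ) ^ 2) := by
  unfold kk
  split_ifs with hn
  · obtain ⟨h1, h2, h3⟩ := prime_rpow_le hd hn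
    obtain ⟨h4, h5⟩ := neg_log_sub_bound h1 h3
    rw [Real.norm_of_nonneg h4]
    refine h5.trans ?_
    have : ((n : ℝ) ^ (-(1 + d))) ^ 2 ≤ (1 / (n : ℝ)) ^ 2 := pow_le_pow_left₀ h1 h2 2
    rw [div_pow, one_pow] at this
    linarith
  · rw [norm_zero]; positivity

lemma summable_kk_bound : Summable (fun n : ℕ => 2 * (1 / (n : ℝ) ^ 2)) :=
  (Real.summable_one_div_nat_pow.2 (by norm_num)).mul_left 2

lemma summable_kk {d : ℝ} (hd : 0 ≤ d) : Summable (kk d) :=
  Summable.of_norm_bounded summable_kk_bound (kk_bound hd)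

lemma tendsto_tsum_kk : Tendsto (fun d : ℝ => ∑' n, kk d n) (𝓝[>] 0) (𝓝 (∑' n, kk 0 n)) := by
  refine tendsto_tsum_of_dominated_convergence (bound := fun n : ℕ => 2 * (1 / (n : ℝ) ^ 2))
    summable_kk_bound ?_ ?_
  · intro n
    unfold kk
    split_ifs with hn
    · have hn0 : (0 : ℝ) < n := by exact_mod_cast hn.pos
      obtain ⟨h1, h2, h3⟩ := prime_rpow_le (le_refl (0 : ℝ)) hn
      have hc : ContinuousAt (fun d : ℝ => (n : ℝ) ^ (-(1 + d))) 0 := by
        refine ContinuousAt.rpow (by fun_prop) (by fun_prop) (Or.inl hn0.ne')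
      have hc2 : ContinuousAt (fun d : ℝ => -Real.log (1 - (n : ℝ) ^ (-(1 + d))) - (n : ℝ) ^ (-(1 + d))) 0 := by
        refine ContinuousAt.sub (ContinuousAt.neg (ContinuousAt.log (by fun_prop) ?_)) hc
        simp only [add_zero] at h3 ⊢
        intro h
        linarith
      exact hc2.tendsto.mono_left nhdsWithin_le_nhds
    · exact tendsto_const_nhds
  · filter_upwards [self_mem_nhdsWithin] with d hd n
    exact kk_bound (le_of_lt hd) n

lemma log_zeta_eq {d : ℝ} (hd : 0 < d) :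
    Real.log (riemannZeta ((1 + d : ℝ) : ℂ)).re = ∑' n : ℕ, fp n * (n : ℝ) ^ (-d) + ∑' n, kk d n := by
  have hs : 1 < ((1 + d : ℝ) : ℂ).re := by simp [hd]
  have h1 := riemannZeta_eulerProduct_exp_log hs
  have h2 : (∑' p : Nat.Primes, -Complex.log (1 - (p : ℂ) ^ (-((1 + d : ℝ) : ℂ)))) =
      ((∑' p : Nat.Primes, -Real.log (1 - ((p : ℕ) : ℝ) ^ (-(1 + d))) : ℝ) : ℂ) := by
    rw [Complex.ofReal_tsum]
    refine tsum_congr fun p => ?_
    obtain ⟨h1, h2, h3⟩ := prime_rpow_le hd.le p.2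
    have h4 : (0 : ℝ) ≤ 1 - ((p : ℕ) : ℝ) ^ (-(1 + d)) := by linarith
    push_cast
    rw [Complex.ofReal_log h4]
    push_cast
    rw [Complex.ofReal_cpow (by positivity)]
    push_cast
    rfl
  rw [h2, ← Complex.ofReal_exp] at h1
  rw [← h1, Complex.ofReal_re, Real.log_exp]
  have h3 : Summable (fun n : ℕ => fp n * (n : ℝ) ^ (-d)) := (Z_eq hd).summable
  rw [← h3.tsum_add (summable_kk hd.le)]
  refine (tsum_subtype {p : ℕ | p.Prime} (fun n : ℕ => -Real.log (1 - (n : ℝ) ^ (-(1 + d))))).trans ?_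
  refine tsum_congr fun n => ?_
  by_cases hn : n.Prime
  · rw [indicator_of_mem (show n ∈ {p : ℕ | p.Prime} from hn)]
    have hn0 : (0 : ℝ) < n := by exact_mod_cast hn.pos
    have e : fp n * (n : ℝ) ^ (-d) = (n : ℝ) ^ (-(1 + d)) := by
      unfold fp
      rw [if_pos hn, neg_add, Real.rpow_add hn0, Real.rpow_neg_one, one_div]
    rw [e]
    unfold kk
    rw [if_pos hn]
    ring
  · rw [indicator_of_notMem (show n ∉ {p : ℕ | p.Prime} from hn)]
    simp [fp, kk, hn]

lemma M_add_K {M : ℝ} (hM : Tendsto (fun v : ℝ => HH v - Real.log v) atTop (𝓝 M)) :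
    M + ∑' n, kk 0 n = Real.eulerMascheroniConstant := by
  have hZ : Tendsto (fun d : ℝ => ∑' n : ℕ, fp n * (n : ℝ) ^ (-d) + Real.log d) (𝓝[>] 0)
      (𝓝 (M - Real.eulerMascheroniConstant)) := by
    have h0 := (tendsto_integral_zero hM).add_const (M - Real.eulerMascheroniConstant)
    rw [zero_add] at h0
    refine h0.congr' ?_
    have h1 : ∀ᶠ d : ℝ in 𝓝[>] 0, d ≤ 1 :=
      (eventually_le_nhds (show (0 : ℝ) < 1 by norm_num)).filter_mono nhdsWithin_le_nhds
    filter_upwards [self_mem_nhdsWithin, h1] with d hd hd1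
    have hd : 0 < d := hd
    rw [(Z_eq hd).tsum_eq]
    have hi1 := integrable_main hM hd hd1
    have hi2 := integral_log_exp.1
    have hi3 : IntegrableOn (fun w : ℝ => Real.exp (-w) * (M - Real.log d)) (Ioi 0) :=
      Integrable.mul_const (integrableOn_exp_neg_Ioi 0) _
    have e : ∫ w in Ioi (0 : ℝ), Real.exp (-w) * HH (w / d) =
        (∫ w in Ioi (0 : ℝ), Real.exp (-w) * (HH (w / d) - Real.log (w / d) - M)) +
        ((∫ w in Ioi (0 : ℝ), Real.exp (-w) * Real.log w) +
        ∫ w in Ioi (0 : ℝ), Real.exp (-w) * (M - Real.log d)) := by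
      have hi23 : IntegrableOn (fun w : ℝ => Real.exp (-w) * Real.log w +
        Real.exp (-w) * (M - Real.log d)) (Ioi 0) := hi2.add hi3
      rw [← integral_add hi2 hi3, ← integral_add hi1 hi23]
      refine setIntegral_congr_fun measurableSet_Ioi fun w hw => ?_
      have hw : 0 < w := hw
      rw [Real.log_div hw.ne' hd.ne']
      ring
    rw [e, integral_log_exp.2, integral_mul_const, integral_exp_neg_Ioi]
    simp
    ring
  have hK := tendsto_tsum_kk
  have hlog : Tendsto (fun d : ℝ => Real.log (riemannZeta ((1 + d : ℝ) : ℂ)).re + Real.log d) (𝓝[>] 0)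
      (𝓝 0) := by
    have h1 := log_riemannZeta_add_log_sub_isLittleO_ofReal.tendsto_div_nhds_zero
    simp only [div_one] at h1
    have h2 : Tendsto (fun d : ℝ => 1 + d) (𝓝[>] 0) (𝓝[>] 1) := by
      refine tendsto_nhdsWithin_iff.2 ⟨?_, ?_⟩
      · have : Tendsto (fun d : ℝ => 1 + d) (𝓝 0) (𝓝 (1 + 0)) := by
          exact (continuous_const.add continuous_id).tendsto 0
        rw [add_zero] at this
        exact this.mono_left nhdsWithin_le_nhds
      · filter_upwards [self_mem_nhdsWithin] with d hd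
        have hd : 0 < d := hd
        simp only [Set.mem_Ioi]
        linarith
    have h3 := h1.comp h2
    refine h3.congr fun d => ?_
    simp only [Function.comp, add_sub_cancel_left]
  have hsum := hZ.add hK
  have heq : Tendsto (fun d : ℝ => Real.log (riemannZeta ((1 + d : ℝ) : ℂ)).re + Real.log d) (𝓝[>] 0)
      (𝓝 (M - Real.eulerMascheroniConstant + ∑' n, kk 0 n)) := by
    refine hsum.congr' ?_
    filter_upwards [self_mem_nhdsWithin] with d hd
    rw [log_zeta_eq hd]
    ring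
  have := tendsto_nhds_unique heq hlog
  linarith

/-- **Third theorem of Mertens.** `∏_{p ≤ N} (1 - 1/p)⁻¹ ~ e^γ log N`. -/
theorem mertens_three : Tendsto (fun N : ℕ => (∏ p ∈ (Finset.Icc 1 N).filter Nat.Prime,
    (1 - (p : ℝ)⁻¹)⁻¹) / Real.log N) atTop (𝓝 (Real.exp Real.eulerMascheroniConstant)) := by
  obtain ⟨M, hM⟩ := exists_M
  have hMK := M_add_K hM
  have hs : Tendsto (fun N : ℕ => ∑ n ∈ Finset.range (N + 1), kk 0 n) atTop (𝓝 (∑' n, kk 0 n)) :=
    ((summable_kk le_rfl).hasSum.tendsto_sum_nat).comp (tendsto_add_atTop_nat 1)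
  obtain ⟨M', hM'⟩ := mertens_inv_tendsto
  -- the two constants agree
  have hMM : M' = M := by
    have h1 : Tendsto (fun k : ℕ => (∑ p ∈ (Finset.Icc 1 (⌈Real.exp k⌉₊ - 1)).filter Nat.Prime, (1 : ℝ) / p)
        - Real.log (Real.log ((⌈Real.exp k⌉₊ - 1 : ℕ) : ℝ))) atTop (𝓝 M') := by
      have hN : Tendsto (fun k : ℕ => ⌈Real.exp k⌉₊ - 1) atTop atTop := by
        refine tendsto_atTop.2 fun b => ?_
        filter_upwards [((tendsto_nat_ceil_atTop.comp Real.tendsto_exp_atTop).comp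
          tendsto_natCast_atTop_atTop).eventually_ge_atTop (b + 1)] with v hv
        simp only [Function.comp] at hv
        omega
      exact hM'.comp hN
    have h2 : Tendsto (fun k : ℕ => Real.log (Real.log ((⌈Real.exp k⌉₊ - 1 : ℕ) : ℝ)) - Real.log k)
        atTop (𝓝 0) := by
      have hr : Tendsto (fun k : ℕ => Real.log ((⌈Real.exp k⌉₊ - 1 : ℕ) : ℝ) / k) atTop (𝓝 1) := by
        have hlow : Tendsto (fun k : ℕ => 1 - Real.log 2 / (k : ℝ)) atTop (𝓝 1) := by
          have := (tendsto_const_nhds (x := Real.log 2)).div_atTop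
            (tendsto_natCast_atTop_atTop (R := ℝ))
          simpa using this.const_sub 1
        refine tendsto_of_tendsto_of_tendsto_of_le_of_le' hlow tendsto_const_nhds ?_ ?_
        · filter_upwards [eventually_ge_atTop 1] with k hk
          have hv : (1 : ℝ) ≤ k := by exact_mod_cast hk
          have hv0 : (0 : ℝ) < k := by linarith
          have he : 2 ≤ Real.exp k := by
            have := Real.add_one_le_exp (k : ℝ); linarith
          have hc : Real.exp k ≤ ⌈Real.exp k⌉₊ := Nat.le_ceil _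
          have hc1 : 1 ≤ ⌈Real.exp k⌉₊ := Nat.one_le_iff_ne_zero.2 (by
            intro h; rw [h] at hc; simp at hc; linarith)
          have hcast : ((⌈Real.exp k⌉₊ - 1 : ℕ) : ℝ) = (⌈Real.exp k⌉₊ : ℝ) - 1 := by
            push_cast [Nat.cast_sub hc1]; ring
          have hge : Real.exp k / 2 ≤ ((⌈Real.exp k⌉₊ - 1 : ℕ) : ℝ) := by rw [hcast]; linarith
          have := Real.log_le_log (by positivity) hge
          rw [Real.log_div (by positivity) (by norm_num), Real.log_exp] at this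
          rw [le_div_iff₀ hv0, sub_mul, div_mul_cancel₀ _ hv0.ne']
          linarith
        · filter_upwards [eventually_ge_atTop 1] with k hk
          have hv : (1 : ℝ) ≤ k := by exact_mod_cast hk
          have hv0 : (0 : ℝ) < k := by linarith
          have he : 2 ≤ Real.exp k := by
            have := Real.add_one_le_exp (k : ℝ); linarith
          have hc : Real.exp k ≤ ⌈Real.exp k⌉₊ := Nat.le_ceil _
          have hc1 : 1 ≤ ⌈Real.exp k⌉₊ := Nat.one_le_iff_ne_zero.2 (by
            intro h; rw [h] at hc; simp at hc; linarith)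
          have hcast : ((⌈Real.exp k⌉₊ - 1 : ℕ) : ℝ) = (⌈Real.exp k⌉₊ : ℝ) - 1 := by
            push_cast [Nat.cast_sub hc1]; ring
          have hlt : (⌈Real.exp k⌉₊ : ℝ) < Real.exp k + 1 := Nat.ceil_lt_add_one (by positivity)
          have hpos : (0 : ℝ) < ((⌈Real.exp k⌉₊ - 1 : ℕ) : ℝ) := by rw [hcast]; linarith
          have := Real.log_le_log hpos (show ((⌈Real.exp k⌉₊ - 1 : ℕ) : ℝ) ≤ Real.exp k by
            rw [hcast]; linarith)
          rw [Real.log_exp] at this
          rw [div_le_one hv0]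
          exact this
      have hr' := (Real.continuousAt_log (by norm_num : (1 : ℝ) ≠ 0)).tendsto.comp hr
      rw [Real.log_one] at hr'
      refine hr'.congr' ?_
      filter_upwards [eventually_ge_atTop 2] with k hk
      have hv : (2 : ℝ) ≤ k := by exact_mod_cast hk
      have hv0 : (0 : ℝ) < k := by linarith
      have he : 3 ≤ Real.exp k := by
        have := Real.add_one_le_exp (k : ℝ); linarith
      have hc : Real.exp k ≤ ⌈Real.exp k⌉₊ := Nat.le_ceil _
      have hc1 : 1 ≤ ⌈Real.exp k⌉₊ := Nat.one_le_iff_ne_zero.2 (by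
        intro h; rw [h] at hc; simp at hc; linarith)
      have hcast : ((⌈Real.exp k⌉₊ - 1 : ℕ) : ℝ) = (⌈Real.exp k⌉₊ : ℝ) - 1 := by
        push_cast [Nat.cast_sub hc1]; ring
      have hpos : 0 < Real.log ((⌈Real.exp k⌉₊ - 1 : ℕ) : ℝ) := Real.log_pos (by rw [hcast]; linarith)
      simp only [Function.comp]
      rw [Real.log_div hpos.ne' hv0.ne']
    have h3 := h1.add h2
    rw [add_zero] at h3
    have h4 := hM.comp (tendsto_natCast_atTop_atTop (R := ℝ))
    have h5 : Tendsto (fun k : ℕ => HH k - Real.log k) atTop (𝓝 M') := by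
      refine h3.congr' ?_
      filter_upwards [eventually_ge_atTop 1] with k hk
      have hc : Real.exp k ≤ ⌈Real.exp k⌉₊ := Nat.le_ceil _
      have hv : (1 : ℝ) ≤ k := by exact_mod_cast hk
      have he : 2 ≤ Real.exp k := by
        have := Real.add_one_le_exp (k : ℝ); linarith
      have hc1 : 1 ≤ ⌈Real.exp k⌉₊ := Nat.one_le_iff_ne_zero.2 (by
        intro h; rw [h] at hc; simp at hc; linarith)
      rw [← sum_fp_range]
      unfold HH
      rw [Nat.sub_add_cancel hc1]
      ring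
    exact tendsto_nhds_unique h5 h4
  have hsum := hM'.add hs
  rw [hMM, hMK] at hsum
  have hexp := (Real.continuous_exp.tendsto _).comp hsum
  refine hexp.congr' ?_
  filter_upwards [eventually_ge_atTop 3] with N hN
  simp only [Function.comp]
  have hN3 : (3 : ℝ) ≤ N := by exact_mod_cast hN
  have hlog : 0 < Real.log N := Real.log_pos (by linarith)
  have e1 : ∑ n ∈ Finset.range (N + 1), kk 0 n =
      ∑ p ∈ (Finset.Icc 1 N).filter Nat.Prime, (-Real.log (1 - (p : ℝ)⁻¹) - 1 / p) := by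
    unfold kk
    rw [Finset.sum_filter, Finset.range_eq_Ico]
    rw [← Finset.sum_subset (s₁ := Finset.Icc 1 N) (s₂ := Finset.Ico 0 (N + 1))]
    · refine Finset.sum_congr rfl fun n hn => ?_
      split_ifs
      · rw [add_zero, Real.rpow_neg_one, one_div]
      · rfl
    · intro n hn
      simp only [Finset.mem_Icc, Finset.mem_Ico] at *
      omega
    · intro n hn hn'
      simp only [Finset.mem_Icc, Finset.mem_Ico] at *
      have : n = 0 := by omega
      subst this
      simp [Nat.not_prime_zero]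
  rw [e1]
  have e2 : ∑ p ∈ (Finset.Icc 1 N).filter Nat.Prime, (1 : ℝ) / p - Real.log (Real.log N) +
      ∑ p ∈ (Finset.Icc 1 N).filter Nat.Prime, (-Real.log (1 - (p : ℝ)⁻¹) - 1 / p) =
      ∑ p ∈ (Finset.Icc 1 N).filter Nat.Prime, Real.log ((1 - (p : ℝ)⁻¹)⁻¹) - Real.log (Real.log N) := by
    rw [Finset.sum_sub_distrib]
    have : ∑ p ∈ (Finset.Icc 1 N).filter Nat.Prime, Real.log ((1 - (p : ℝ)⁻¹)⁻¹) =
        ∑ p ∈ (Finset.Icc 1 N).filter Nat.Prime, -Real.log (1 - (p : ℝ)⁻¹) :=
      Finset.sum_congr rfl fun p _ => by rw [Real.log_inv]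
    rw [this]
    ring
  rw [e2, Real.exp_sub, Real.exp_log hlog, Real.exp_sum]
  congr 1
  refine Finset.prod_congr rfl fun p hp => ?_
  have hp := (Finset.mem_filter.1 hp).2
  have h2 : (2 : ℝ) ≤ p := by exact_mod_cast hp.two_le
  rw [Real.exp_log]
  have : (p : ℝ)⁻¹ ≤ 1 / 2 := by
    rw [one_div]
    exact inv_anti₀ (by norm_num) h2
  have : 0 < 1 - (p : ℝ)⁻¹ := by linarith
  positivity

end Pool.Agent.H305R2
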