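import Mathlib
import Pool.Agent.H305R2.MertensE
import Pool.Agent.H305R2.Recip

set_option autoImplicit false

namespace Pool.Agent.H305R2

open Finset Filter Topology

/-- the `p`-smooth numbers: positive integers all of whose prime factors are at most `p` -/
def SM (p : ℕ) : Set ℕ := Nat.smoothNumbers (p + 1)

/-- Euler product of the primes up to `p` at `1` -/
noncomputable def VV (p : ℕ) : ℝ := ∏ r ∈ (Finset.Icc 1 p).filter Nat.Prime, (1 - (r : ℝ)⁻¹)⁻¹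

/-- Euler product of the primes up to `p` at `1/2` -/
noncomputable def ZZ (p : ℕ) : ℝ :=
  ∏ r ∈ (Finset.Icc 1 p).filter Nat.Prime, (1 - (r : ℝ) ^ (-(1 / 2) : ℝ))⁻¹

lemma primesBelow_succ_eq (p : ℕ) : Nat.primesBelow (p + 1) = (Finset.Icc 1 p).filter Nat.Prime := by
  ext x
  rw [Nat.mem_primesBelow, Finset.mem_filter, Finset.mem_Icc]
  constructor
  · rintro ⟨h1, h2⟩; exact ⟨⟨h2.one_lt.le, by omega⟩, h2⟩
  · rintro ⟨h1, h2⟩; exact ⟨by omega, h2⟩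

/-- `n ↦ n^{-σ}` as a monoid hom -/
noncomputable def powHom (σ : ℝ) : ℕ →* ℝ where
  toFun n := (n : ℝ) ^ (-σ)
  map_one' := by simp
  map_mul' m n := by
    push_cast
    rw [Real.mul_rpow (by positivity) (by positivity)]

lemma prime_rpow_lt_one {σ : ℝ} (hσ : 0 < σ) {r : ℕ} (hr : r.Prime) :
    ‖powHom σ r‖ < 1 := by
  have h2 : (1 : ℝ) < r := by exact_mod_cast hr.one_lt
  change ‖(r : ℝ) ^ (-σ)‖ < 1
  rw [Real.norm_of_nonneg (by positivity)]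
  exact Real.rpow_lt_one_of_one_lt_of_neg h2 (by linarith)

lemma hasSum_smooth {σ : ℝ} (hσ : 0 < σ) (p : ℕ) :
    HasSum ((SM p).indicator (fun n : ℕ => (n : ℝ) ^ (-σ)))
      (∏ r ∈ (Finset.Icc 1 p).filter Nat.Prime, (1 - (r : ℝ) ^ (-σ))⁻¹) := by
  have h := (EulerProduct.summable_and_hasSum_smoothNumbers_prod_primesBelow_geometric
    (f := powHom σ) (fun {r} hr => prime_rpow_lt_one hσ hr) (p + 1)).2
  rw [primesBelow_succ_eq] at h
  rw [← hasSum_subtype_iff_indicator]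
  exact h

lemma hasSum_VV (p : ℕ) : HasSum ((SM p).indicator (fun n : ℕ => (n : ℝ)⁻¹)) (VV p) := by
  have h := hasSum_smooth one_pos p
  simp only [Real.rpow_neg_one] at h
  exact h

lemma hasSum_ZZ (p : ℕ) : HasSum ((SM p).indicator (fun n : ℕ => (n : ℝ) ^ (-(1 / 2) : ℝ))) (ZZ p) :=
  hasSum_smooth (by norm_num) p

lemma sum_le_VV (p : ℕ) (F : Finset ℕ) (hF : ∀ n ∈ F, n ∈ SM p) : ∑ n ∈ F, (n : ℝ)⁻¹ ≤ VV p := by
  have h := sum_le_hasSum F (fun n _ => Set.indicator_nonneg (fun n _ => by positivity) n) (hasSum_VV p)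
  refine le_trans (le_of_eq ?_) h
  exact Finset.sum_congr rfl fun n hn => by rw [Set.indicator_of_mem (hF n hn)]

lemma sum_le_ZZ (p : ℕ) (F : Finset ℕ) (hF : ∀ n ∈ F, n ∈ SM p) :
    ∑ n ∈ F, (n : ℝ) ^ (-(1 / 2) : ℝ) ≤ ZZ p := by
  have h := sum_le_hasSum F (fun n _ => Set.indicator_nonneg (fun n _ => by positivity) n) (hasSum_ZZ p)
  refine le_trans (le_of_eq ?_) h
  exact Finset.sum_congr rfl fun n hn => by rw [Set.indicator_of_mem (hF n hn)]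

lemma ZZ_nonneg (p : ℕ) : 0 ≤ ZZ p := by
  have := sum_le_ZZ p ∅ (by simp)
  simpa using this

lemma VV_nonneg (p : ℕ) : 0 ≤ VV p := by
  have := sum_le_VV p ∅ (by simp)
  simpa using this

lemma SM_pos {p n : ℕ} (h : n ∈ SM p) : 0 < n := Nat.pos_of_ne_zero (Nat.ne_zero_of_mem_smoothNumbers h)

lemma inv_le_rpow {z : ℝ} (hz : 0 < z) {n : ℕ} (hn : z ≤ n) :
    (n : ℝ)⁻¹ ≤ z ^ (-(1 / 2) : ℝ) * (n : ℝ) ^ (-(1 / 2) : ℝ) := by
  have hn0 : (0 : ℝ) < n := by linarith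
  have e : (n : ℝ)⁻¹ = (n : ℝ) ^ (-(1 / 2) : ℝ) * (n : ℝ) ^ (-(1 / 2) : ℝ) := by
    rw [← Real.rpow_add hn0, ← Real.rpow_neg_one]
    norm_num
  rw [e]
  refine mul_le_mul_of_nonneg_right ?_ (by positivity)
  exact Real.rpow_le_rpow_of_nonpos hz hn (by norm_num)

lemma tail_le (p : ℕ) {z : ℝ} (hz : 0 < z) (F : Finset ℕ) (hF : ∀ n ∈ F, n ∈ SM p ∧ z ≤ n) :
    ∑ n ∈ F, (n : ℝ)⁻¹ ≤ z ^ (-(1 / 2) : ℝ) * ZZ p := by
  calc ∑ n ∈ F, (n : ℝ)⁻¹ ≤ ∑ n ∈ F, z ^ (-(1 / 2) : ℝ) * (n : ℝ) ^ (-(1 / 2) : ℝ) :=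
        Finset.sum_le_sum fun n hn => inv_le_rpow hz (hF n hn).2
    _ = z ^ (-(1 / 2) : ℝ) * ∑ n ∈ F, (n : ℝ) ^ (-(1 / 2) : ℝ) := by rw [Finset.mul_sum]
    _ ≤ _ := mul_le_mul_of_nonneg_left (sum_le_ZZ p F fun n hn => (hF n hn).1) (by positivity)

lemma card_le (p : ℕ) {Y : ℝ} (hY : 0 < Y) (F : Finset ℕ) (hF : ∀ n ∈ F, n ∈ SM p ∧ (n : ℝ) ≤ Y) :
    (F.card : ℝ) ≤ Y ^ (1 / 2 : ℝ) * ZZ p := by
  calc (F.card : ℝ) = ∑ n ∈ F, (1 : ℝ) := by simp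
    _ ≤ ∑ n ∈ F, Y ^ (1 / 2 : ℝ) * (n : ℝ) ^ (-(1 / 2) : ℝ) := by
        refine Finset.sum_le_sum fun n hn => ?_
        have hn0 : (0 : ℝ) < n := by exact_mod_cast SM_pos (hF n hn).1
        rw [Real.rpow_neg hn0.le, ← div_eq_mul_inv, le_div_iff₀ (by positivity), one_mul]
        exact Real.rpow_le_rpow hn0.le (hF n hn).2 (by norm_num)
    _ = Y ^ (1 / 2 : ℝ) * ∑ n ∈ F, (n : ℝ) ^ (-(1 / 2) : ℝ) := by rw [Finset.mul_sum]
    _ ≤ _ := mul_le_mul_of_nonneg_left (sum_le_ZZ p F fun n hn => (hF n hn).1) (by positivity)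

open Classical in
/-- the smooth numbers up to `z` -/
noncomputable def SMz (p : ℕ) (z : ℝ) : Finset ℕ := (Finset.Icc 1 ⌊z⌋₊).filter (fun n => n ∈ SM p)

lemma mem_SMz {p : ℕ} {z : ℝ} (hz : 0 ≤ z) {n : ℕ} : n ∈ SMz p z ↔ n ∈ SM p ∧ (n : ℝ) ≤ z := by
  classical
  unfold SMz
  rw [Finset.mem_filter, Finset.mem_Icc, Nat.le_floor_iff hz]
  constructor
  · rintro ⟨⟨h1, h2⟩, h3⟩; exact ⟨h3, h2⟩
  · rintro ⟨h1, h2⟩; exact ⟨⟨SM_pos h1, h2⟩, h1⟩

lemma VV_le (p : ℕ) {z : ℝ} (hz : 0 < z) :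
    VV p ≤ ∑ n ∈ SMz p z, (n : ℝ)⁻¹ + z ^ (-(1 / 2) : ℝ) * ZZ p := by
  refine hasSum_le_of_sum_le (hasSum_VV p) fun s => ?_
  classical
  have e : ∑ n ∈ s, (SM p).indicator (fun n : ℕ => (n : ℝ)⁻¹) n =
      ∑ n ∈ s.filter (fun n => n ∈ SM p), (n : ℝ)⁻¹ := by
    rw [Finset.sum_filter]
    refine Finset.sum_congr rfl fun n _ => ?_
    rw [Set.indicator_apply]
  rw [e]
  rw [← Finset.sum_filter_add_sum_filter_not (s.filter (fun n => n ∈ SM p)) (fun n => (n : ℝ) ≤ z)]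
  refine add_le_add ?_ ?_
  · refine Finset.sum_le_sum_of_subset_of_nonneg ?_ fun n _ _ => by positivity
    intro n hn
    rw [Finset.mem_filter, Finset.mem_filter] at hn
    exact (mem_SMz hz.le).2 ⟨hn.1.2, hn.2⟩
  · refine tail_le p hz _ fun n hn => ?_
    rw [Finset.mem_filter, Finset.mem_filter, not_le] at hn
    exact ⟨hn.1.2, hn.2.le⟩

lemma ZZ_le (p : ℕ) : ZZ p ≤ 4 ^ (Nat.primeCounting p) := by
  have hcard : ((Finset.Icc 1 p).filter Nat.Prime).card = Nat.primeCounting p := by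
    rw [← primesBelow_succ_eq, Nat.primesBelow_card_eq_primeCounting', Nat.primeCounting]
  unfold ZZ
  rw [← hcard]
  refine (Finset.prod_le_prod (g := fun _ => (4 : ℝ)) ?_ ?_).trans ?_
  · intro r hr
    have hp := (Finset.mem_filter.1 hr).2
    have := prime_rpow_lt_one (σ := 1 / 2) (by norm_num) hp
    change ‖(r : ℝ) ^ (-(1 / 2) : ℝ)‖ < 1 at this
    rw [Real.norm_of_nonneg (by positivity)] at this
    have : 0 < 1 - (r : ℝ) ^ (-(1 / 2) : ℝ) := by linarith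
    positivity
  · intro r hr
    have hp := (Finset.mem_filter.1 hr).2
    have h2 : (2 : ℝ) ≤ r := by exact_mod_cast hp.two_le
    have h3 : (r : ℝ) ^ (-(1 / 2) : ℝ) ≤ 3 / 4 := by
      have h4 : (r : ℝ) ^ (-(1 / 2) : ℝ) ≤ (2 : ℝ) ^ (-(1 / 2) : ℝ) :=
        Real.rpow_le_rpow_of_nonpos (by norm_num) h2 (by norm_num)
      have h5 : (2 : ℝ) ^ (-(1 / 2) : ℝ) ≤ 3 / 4 := by
        have h6 : ((2 : ℝ) ^ (-(1 / 2) : ℝ)) ^ 2 = 1 / 2 := by
          rw [← Real.rpow_natCast, ← Real.rpow_mul (by norm_num)]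
          norm_num
        have h7 : 0 ≤ (2 : ℝ) ^ (-(1 / 2) : ℝ) := by positivity
        nlinarith
      linarith
    rw [inv_le_comm₀ (by linarith) (by norm_num)]
    linarith
  · rw [Finset.prod_const]

lemma primeCounting_div_tendsto : Tendsto (fun n : ℕ => (Nat.primeCounting n : ℝ) / n) atTop (𝓝 0) := by
  have h := Pool.Agent.Helper601.PNT.pi_tendsto.comp (tendsto_natCast_atTop_atTop (R := ℝ))
  have h2 : Tendsto (fun n : ℕ => (Real.log n)⁻¹) atTop (𝓝 0) :=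
    tendsto_inv_atTop_zero.comp (Real.tendsto_log_atTop.comp (tendsto_natCast_atTop_atTop (R := ℝ)))
  have h3 := h.mul h2
  rw [mul_zero] at h3
  refine h3.congr' ?_
  filter_upwards [eventually_ge_atTop 2] with n hn
  have hn2 : (2 : ℝ) ≤ n := by exact_mod_cast hn
  have hl : 0 < Real.log n := Real.log_pos (by linarith)
  simp only [Function.comp, Nat.floor_natCast]
  field_simp

lemma ZZ_le_exp {c : ℝ} (hc : 0 < c) : ∀ᶠ p : ℕ in atTop, ZZ p ≤ Real.exp (c * p) := by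
  have h := primeCounting_div_tendsto.eventually_lt_const (show (0 : ℝ) < c / Real.log 4 by
    have : 0 < Real.log 4 := Real.log_pos (by norm_num)
    positivity)
  filter_upwards [h, eventually_ge_atTop 1] with p hp hp1
  have hp0 : (0 : ℝ) < p := by exact_mod_cast hp1
  have h4 : 0 < Real.log 4 := Real.log_pos (by norm_num)
  refine (ZZ_le p).trans ?_
  rw [← Real.exp_log (show (0 : ℝ) < 4 by norm_num), ← Real.exp_nat_mul]
  rw [Real.exp_le_exp]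
  rw [div_lt_div_iff₀ hp0 h4] at hp
  linarith

lemma VV_tendsto : Tendsto (fun p : ℕ => VV p / Real.log p) atTop
    (𝓝 (Real.exp Real.eulerMascheroniConstant)) := mertens_three

end Pool.Agent.H305R2
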