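import Mathlib
import Pool.Agent.H305R2.Smooth

set_option autoImplicit false

namespace Pool.Agent.H305R2

open Finset Filter Topology

/-- the `p`-rough part of `m`: the product, with multiplicity, of the prime factors of `m` that
exceed `p` -/
def roughPart (p m : ℕ) : ℕ := (m.primeFactorsList.filter (fun r => p < r)).prod

lemma roughPart_mul {p s q : ℕ} (hs : s ∈ SM p) (hq : q.Prime) (hpq : p < q) :
    roughPart p (s * q) = q := by
  have hs0 := (SM_pos hs).ne'
  unfold roughPart
  have h1 := (Nat.perm_primeFactorsList_mul hs0 hq.ne_zero).filter (fun r => decide (p < r))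
  rw [h1.prod_eq, List.filter_append, List.prod_append, Nat.primeFactorsList_prime hq]
  have h2 : (s.primeFactorsList.filter (fun r => decide (p < r))) = [] := by
    rw [List.filter_eq_nil_iff]
    intro r hr
    have := hs.2 r hr
    simp only [decide_eq_true_eq]
    omega
  rw [h2]
  simp [hpq]

lemma roughPart_prime {p m : ℕ} (h : (roughPart p m).Prime) :
    p < roughPart p m ∧ ∃ s ∈ SM p, m = s * roughPart p m := by
  have hm : m ≠ 0 := by
    rintro rfl
    simp [roughPart, Nat.not_prime_one] at h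
  constructor
  · -- some element of the list is the prime itself
    unfold roughPart at h ⊢
    set L := m.primeFactorsList.filter (fun r => decide (p < r)) with hL
    obtain ⟨r, hr, hd⟩ := (Prime.dvd_prod_iff (Nat.Prime.prime h)).1 dvd_rfl
    have hr' := List.mem_filter.1 hr
    have hrp := Nat.prime_of_mem_primeFactorsList hr'.1
    have := (Nat.prime_dvd_prime_iff_eq h hrp).1 hd
    rw [this]
    simpa using hr'.2
  · refine ⟨(m.primeFactorsList.filter (fun r => decide (r < p + 1))).prod,
      Nat.prod_mem_smoothNumbers m (p + 1), ?_⟩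
    unfold roughPart
    conv_lhs => rw [← Nat.prod_primeFactorsList hm]
    have h1 := List.filter_append_perm (fun r => decide (r < p + 1)) m.primeFactorsList
    rw [← h1.prod_eq, List.prod_append]
    congr 2
    refine List.filter_congr fun r _ => ?_
    by_cases h2 : r < p + 1
    · have h3 : ¬ p < r := by omega
      simp [h2, h3]
    · have h3 : p < r := by omega
      simp [h2, h3]

/-- The numbers in `(A, B]` with prime `p`-rough part, parametrised as `s * q`. -/
lemma sum_rough_eq (p A B : ℕ) (w : ℕ → ℝ) :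
    ∑ m ∈ (Finset.Ioc A B).filter (fun m => (roughPart p m).Prime), w m =
      ∑ s ∈ SMz p B, ∑ q ∈ (Finset.Ioc (A / s) (B / s)).filter (fun q => q.Prime ∧ p < q), w (s * q) := by
  rw [Finset.sum_sigma']
  refine Finset.sum_bij' (i := fun m _ => (⟨m / roughPart p m, roughPart p m⟩ : (_ : ℕ) × ℕ))
    (j := fun x _ => x.1 * x.2) ?_ ?_ ?_ ?_ ?_
  · intro m hm
    obtain ⟨hm1, hm2⟩ := Finset.mem_filter.1 hm
    obtain ⟨hpq, s, hs, he⟩ := roughPart_prime hm2
    set q := roughPart p m
    have hq0 : 0 < q := hm2.pos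
    have hs0 := SM_pos hs
    have hdiv : m / q = s := by
      conv_lhs => rw [he]
      exact Nat.mul_div_cancel s hq0
    rw [Finset.mem_Ioc] at hm1
    simp only [Finset.mem_sigma, Finset.mem_filter, Finset.mem_Ioc]
    rw [hdiv]
    refine ⟨(mem_SMz (by positivity)).2 ⟨hs, ?_⟩, ⟨?_, ?_⟩, hm2, hpq⟩
    · have : s ≤ B := by
        calc s ≤ s * q := Nat.le_mul_of_pos_right s hq0
          _ = m := he.symm
          _ ≤ B := hm1.2
      exact_mod_cast this
    · rw [Nat.div_lt_iff_lt_mul hs0, mul_comm, ← he]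
      exact hm1.1
    · rw [Nat.le_div_iff_mul_le hs0, mul_comm, ← he]
      exact hm1.2
  · rintro ⟨s, q⟩ hx
    simp only [Finset.mem_sigma, Finset.mem_filter, Finset.mem_Ioc] at hx
    obtain ⟨h1, ⟨h2, h3⟩, h4, h5⟩ := hx
    have hs := ((mem_SMz (by positivity)).1 h1).1
    have hs0 := SM_pos hs
    rw [Finset.mem_filter, Finset.mem_Ioc]
    refine ⟨⟨?_, ?_⟩, ?_⟩
    · rw [Nat.div_lt_iff_lt_mul hs0, mul_comm] at h2
      exact h2
    · rw [Nat.le_div_iff_mul_le hs0, mul_comm] at h3
      exact h3
    · rw [roughPart_mul hs h4 h5]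
      exact h4
  · intro m hm
    obtain ⟨hm1, hm2⟩ := Finset.mem_filter.1 hm
    obtain ⟨hpq, s, hs, he⟩ := roughPart_prime hm2
    simp only
    rw [Nat.div_mul_cancel]
    exact ⟨s, by rw [mul_comm]; exact he⟩
  · rintro ⟨s, q⟩ hx
    simp only [Finset.mem_sigma, Finset.mem_filter, Finset.mem_Ioc] at hx
    obtain ⟨h1, ⟨h2, h3⟩, h4, h5⟩ := hx
    have hs := ((mem_SMz (by positivity)).1 h1).1
    simp only [roughPart_mul hs h4 h5]
    rw [Nat.mul_div_cancel s h4.pos]
  · intro m hm
    obtain ⟨hm1, hm2⟩ := Finset.mem_filter.1 hm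
    obtain ⟨hpq, s, hs, he⟩ := roughPart_prime hm2
    simp only
    rw [Nat.div_mul_cancel]
    exact ⟨s, by rw [mul_comm]; exact he⟩

end Pool.Agent.H305R2
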