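import Mathlib
import Pool.Agent.H305R2.W1

set_option autoImplicit false

namespace Pool.Agent.H305R2

open Finset Filter Topology MeasureTheory

/-- upper bound for the reciprocal sum over the window -/
lemma TT_upper {p : ℕ} {y δ X : ℝ} (hδ : 0 < δ) (hδ1 : δ < 1) (hX : 1 < X)
    (hRR : ∀ x, X ≤ x → RR x * Real.log x ≤ 1 + δ) (hy : X ≤ Real.exp ((1 - δ) * y)) (hy0 : 0 < y) :
    TT p y ≤ (1 + δ) / ((1 - δ) * y) * VV p + 3 * (Real.exp (-(δ * y / 2)) * ZZ p) := by
  refine (TT_le p y).trans ?_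
  set z := Real.exp (δ * y) with hz
  have hz0 : 0 < z := Real.exp_pos _
  rw [← Finset.sum_filter_add_sum_filter_not _ (fun s : ℕ => (s : ℝ) ≤ z)]
  refine add_le_add ?_ ?_
  · calc ∑ s ∈ (SMz p (⌊Real.exp (y + 1)⌋₊ : ℝ)).filter (fun s : ℕ => (s : ℝ) ≤ z),
          (s : ℝ)⁻¹ * RR (Real.exp y / s) ≤
        ∑ s ∈ (SMz p (⌊Real.exp (y + 1)⌋₊ : ℝ)).filter (fun s : ℕ => (s : ℝ) ≤ z),
          (s : ℝ)⁻¹ * ((1 + δ) / ((1 - δ) * y)) := by
          refine Finset.sum_le_sum fun s hs => mul_le_mul_of_nonneg_left ?_ (by positivity)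
          rw [Finset.mem_filter, mem_SMz (by positivity)] at hs
          have hs0 : (0 : ℝ) < s := by exact_mod_cast SM_pos hs.1.1
          have h1 : Real.exp ((1 - δ) * y) ≤ Real.exp y / s := by
            rw [le_div_iff₀ hs0]
            calc Real.exp ((1 - δ) * y) * s ≤ Real.exp ((1 - δ) * y) * z :=
                  mul_le_mul_of_nonneg_left hs.2 (Real.exp_pos _).le
              _ = Real.exp y := by rw [hz, ← Real.exp_add]; congr 1; ring
          have h2 := hRR _ (hy.trans h1)
          have h3 : (1 - δ) * y ≤ Real.log (Real.exp y / s) := by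
            rw [← Real.log_exp ((1 - δ) * y)]
            exact Real.log_le_log (Real.exp_pos _) h1
          have h4 : 0 < (1 - δ) * y := mul_pos (by linarith) hy0
          rw [le_div_iff₀ h4]
          exact (mul_le_mul_of_nonneg_left h3 (RR_nonneg _)).trans h2
      _ = (1 + δ) / ((1 - δ) * y) *
          ∑ s ∈ (SMz p (⌊Real.exp (y + 1)⌋₊ : ℝ)).filter (fun s : ℕ => (s : ℝ) ≤ z), (s : ℝ)⁻¹ := by
          rw [Finset.mul_sum]
          exact Finset.sum_congr rfl fun s _ => by ring
      _ ≤ _ := by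
          have h4 : 0 < (1 - δ) * y := mul_pos (by linarith) hy0
          refine mul_le_mul_of_nonneg_left (sum_le_VV p _ fun s hs => ?_) (by positivity)
          rw [Finset.mem_filter, mem_SMz (by positivity)] at hs
          exact hs.1.1
  · calc ∑ s ∈ (SMz p (⌊Real.exp (y + 1)⌋₊ : ℝ)).filter (fun s : ℕ => ¬ (s : ℝ) ≤ z),
          (s : ℝ)⁻¹ * RR (Real.exp y / s) ≤
        ∑ s ∈ (SMz p (⌊Real.exp (y + 1)⌋₊ : ℝ)).filter (fun s : ℕ => ¬ (s : ℝ) ≤ z), (s : ℝ)⁻¹ * 3 := by
          refine Finset.sum_le_sum fun s hs => mul_le_mul_of_nonneg_left ?_ (by positivity)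
          rw [Finset.mem_filter, mem_SMz (by positivity)] at hs
          have hs0 : (0 : ℝ) < s := by exact_mod_cast SM_pos hs.1.1
          exact RR_le_three (by positivity)
      _ = 3 * ∑ s ∈ (SMz p (⌊Real.exp (y + 1)⌋₊ : ℝ)).filter (fun s : ℕ => ¬ (s : ℝ) ≤ z), (s : ℝ)⁻¹ := by
          rw [Finset.mul_sum]
          exact Finset.sum_congr rfl fun s _ => by ring
      _ ≤ 3 * (z ^ (-(1 / 2) : ℝ) * ZZ p) := by
          refine mul_le_mul_of_nonneg_left (tail_le p hz0 _ fun s hs => ?_) (by norm_num)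
          rw [Finset.mem_filter, mem_SMz (by positivity)] at hs
          exact ⟨hs.1.1, (not_le.1 hs.2).le⟩
      _ = _ := by
          rw [hz, ← Real.exp_mul]
          congr 3
          ring_nf

/-- lower bound for the reciprocal sum over the window -/
lemma TT_lower {p : ℕ} {y δ X : ℝ} (hδ : 0 < δ) (hδ1 : δ < 1) (hX : 1 < X)
    (hRR : ∀ x, X ≤ x → 1 - δ ≤ RR x * Real.log x) (hy : X ≤ Real.exp ((1 - δ) * y)) (hy0 : 0 < y)
    (hyp : Real.exp (δ * y) * (p + 1) ≤ Real.exp y) :
    (1 - δ) / y * VV p - 1 / y * (Real.exp (-(δ * y / 2)) * ZZ p) ≤ TT p y := by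
  refine le_trans ?_ (le_TT (Real.exp_pos _) hyp)
  set z := Real.exp (δ * y) with hz
  have hz0 : 0 < z := Real.exp_pos _
  have h1 : (1 - δ) / y * ∑ s ∈ SMz p z, (s : ℝ)⁻¹ ≤ ∑ s ∈ SMz p z, (s : ℝ)⁻¹ * RR (Real.exp y / s) := by
    rw [Finset.mul_sum]
    refine Finset.sum_le_sum fun s hs => ?_
    rw [mem_SMz hz0.le] at hs
    have hs0 : (0 : ℝ) < s := by exact_mod_cast SM_pos hs.1
    have hs1 : (1 : ℝ) ≤ s := by exact_mod_cast SM_pos hs.1
    rw [mul_comm]
    refine mul_le_mul_of_nonneg_left ?_ (by positivity)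
    have h1 : Real.exp ((1 - δ) * y) ≤ Real.exp y / s := by
      rw [le_div_iff₀ hs0]
      calc Real.exp ((1 - δ) * y) * s ≤ Real.exp ((1 - δ) * y) * z :=
            mul_le_mul_of_nonneg_left hs.2 (Real.exp_pos _).le
        _ = Real.exp y := by rw [hz, ← Real.exp_add]; congr 1; ring
    have h2 := hRR _ (hy.trans h1)
    have h3 : Real.log (Real.exp y / s) ≤ y := by
      rw [Real.log_div (Real.exp_pos _).ne' hs0.ne', Real.log_exp]
      have := Real.log_nonneg hs1
      linarith
    rw [div_le_iff₀ hy0]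
    exact h2.trans (mul_le_mul_of_nonneg_left h3 (RR_nonneg _))
  have h2 := VV_le p hz0
  have h3 : z ^ (-(1 / 2) : ℝ) = Real.exp (-(δ * y / 2)) := by
    rw [hz, ← Real.exp_mul]
    congr 1
    ring
  rw [h3] at h2
  have h4 : (1 - δ) / y * VV p ≤ (1 - δ) / y * (∑ n ∈ SMz p z, (n : ℝ)⁻¹ + Real.exp (-(δ * y / 2)) * ZZ p) :=
    mul_le_mul_of_nonneg_left h2 (by have : 0 < 1 - δ := by linarith
                                     positivity)
  have h5 : (1 - δ) / y * (Real.exp (-(δ * y / 2)) * ZZ p) ≤ 1 / y * (Real.exp (-(δ * y / 2)) * ZZ p) := by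
    refine mul_le_mul_of_nonneg_right ?_ (mul_nonneg (Real.exp_pos _).le (ZZ_nonneg p))
    exact div_le_div_of_nonneg_right (by linarith) hy0.le
  rw [mul_add] at h4
  linarith

/-- error terms tend to zero -/
lemma error_tendsto {a : ℝ} (ha : 0 < a) {y : ℕ → ℝ} (hy : Tendsto (fun p : ℕ => y p / p) atTop (𝓝 a))
    {δ : ℝ} (hδ : 0 < δ) :
    Tendsto (fun p : ℕ => (p : ℝ) * (3 * (Real.exp (-(δ * y p / 2)) * ZZ p) + 4 * Real.exp (-(y p))))
      atTop (𝓝 0) := by
  have hyge : ∀ᶠ p : ℕ in atTop, a / 2 * p ≤ y p := by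
    have h1 := hy.eventually_const_lt (show a / 2 < a by linarith)
    filter_upwards [h1, eventually_ge_atTop 1] with p hp hp1
    have hp0 : (0 : ℝ) < p := by exact_mod_cast hp1
    rw [lt_div_iff₀ hp0] at hp
    exact hp.le
  have hc : 0 < δ * a / 8 := by positivity
  have hlim1 : Tendsto (fun p : ℕ => (p : ℝ) * (3 * Real.exp (-(δ * a / 8) * p))) atTop (𝓝 0) := by
    have h1 : Tendsto (fun x : ℝ => x ^ (1 : ℕ) * Real.exp (-(δ * a / 8) * x)) atTop (𝓝 0) := by
      have := Real.tendsto_pow_mul_exp_neg_atTop_nhds_zero 1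
      have h2 := this.comp (tendsto_id.const_mul_atTop hc)
      have h3 := h2.const_mul (δ * a / 8)⁻¹
      rw [mul_zero] at h3
      refine h3.congr fun x => ?_
      simp only [Function.comp, id]
      rw [pow_one, pow_one]
      have : -(δ * a / 8 * x) = -(δ * a / 8) * x := by ring
      rw [this]
      field_simp
    have h2 := (h1.comp (tendsto_natCast_atTop_atTop (R := ℝ))).const_mul 3
    rw [mul_zero] at h2
    refine h2.congr fun p => ?_
    simp only [Function.comp]
    ring
  have hlim2 : Tendsto (fun p : ℕ => (p : ℝ) * (4 * Real.exp (-(a / 2) * p))) atTop (𝓝 0) := by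
    have hc2 : 0 < a / 2 := by positivity
    have h1 : Tendsto (fun x : ℝ => x ^ (1 : ℕ) * Real.exp (-(a / 2) * x)) atTop (𝓝 0) := by
      have := Real.tendsto_pow_mul_exp_neg_atTop_nhds_zero 1
      have h2 := this.comp (tendsto_id.const_mul_atTop hc2)
      have h3 := h2.const_mul (a / 2)⁻¹
      rw [mul_zero] at h3
      refine h3.congr fun x => ?_
      simp only [Function.comp, id]
      rw [pow_one, pow_one]
      have : -(a / 2 * x) = -(a / 2) * x := by ring
      rw [this]
      field_simp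
    have h2 := (h1.comp (tendsto_natCast_atTop_atTop (R := ℝ))).const_mul 4
    rw [mul_zero] at h2
    refine h2.congr fun p => ?_
    simp only [Function.comp]
    ring
  have hlim := hlim1.add hlim2
  rw [add_zero] at hlim
  refine squeeze_zero' ?_ ?_ hlim
  · exact Eventually.of_forall fun p => mul_nonneg (by positivity) (by
      have := ZZ_nonneg p
      positivity)
  · filter_upwards [hyge, ZZ_le_exp hc] with p hp hz
    have hp0 : (0 : ℝ) ≤ p := by positivity
    rw [← mul_add]
    refine mul_le_mul_of_nonneg_left (add_le_add ?_ ?_) hp0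
    · refine mul_le_mul_of_nonneg_left ?_ (by norm_num)
      calc Real.exp (-(δ * y p / 2)) * ZZ p ≤ Real.exp (-(δ * y p / 2)) * Real.exp (δ * a / 8 * p) :=
            mul_le_mul_of_nonneg_left hz (Real.exp_pos _).le
        _ = Real.exp (-(δ * y p / 2) + δ * a / 8 * p) := by rw [Real.exp_add]
        _ ≤ _ := by
            apply Real.exp_le_exp.2
            have := mul_le_mul_of_nonneg_left hp hδ.le
            linarith
    · refine mul_le_mul_of_nonneg_left (Real.exp_le_exp.2 ?_) (by norm_num)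
      linarith

/-- **Window asymptotics.** If `y_p / p → a > 0` then the measure of the set of `t ∈ (y_p, y_p+1]`
for which the largest integer below `exp t` has prime `p`-rough part is `~ e^γ log p / (a p)`. -/
theorem window_asymp {a : ℝ} (ha : 0 < a) {y : ℕ → ℝ}
    (hy : Tendsto (fun p : ℕ => y p / p) atTop (𝓝 a)) :
    Tendsto (fun p : ℕ => (∫ t in Set.Ioc (y p) (y p + 1), ff p t) * (p / Real.log p)) atTop
      (𝓝 (Real.exp Real.eulerMascheroniConstant / a)) := by
  set G := Real.exp Real.eulerMascheroniConstant with hG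
  have hytop : Tendsto y atTop atTop := by
    have h1 : Tendsto (fun p : ℕ => y p / p * p) atTop atTop :=
      hy.pos_mul_atTop ha (tendsto_natCast_atTop_atTop (R := ℝ))
    refine h1.congr' ?_
    filter_upwards [eventually_ge_atTop 1] with p hp
    have hp0 : (0 : ℝ) < p := by exact_mod_cast hp
    field_simp
  rw [Metric.tendsto_atTop]
  intro ε hε
  -- choose δ
  have hδ : ∃ δ : ℝ, 0 < δ ∧ δ < 1 ∧ G * ((1 + δ) / (1 - δ)) / a < G / a + ε / 2 ∧
      G / a - ε / 2 < G * (1 - δ) / a := by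
    have h1 : Tendsto (fun δ : ℝ => G * ((1 + δ) / (1 - δ)) / a) (𝓝[>] 0) (𝓝 (G / a)) := by
      have : ContinuousAt (fun δ : ℝ => G * ((1 + δ) / (1 - δ)) / a) 0 := by
        refine ContinuousAt.div_const (ContinuousAt.mul continuousAt_const
          (ContinuousAt.div (by fun_prop) (by fun_prop) (by norm_num))) _
      have h2 := this.tendsto.mono_left (nhdsWithin_le_nhds (s := Set.Ioi 0))
      simpa using h2
    have h2 : Tendsto (fun δ : ℝ => G * (1 - δ) / a) (𝓝[>] 0) (𝓝 (G / a)) := by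
      have : ContinuousAt (fun δ : ℝ => G * (1 - δ) / a) 0 := by fun_prop
      have h2 := this.tendsto.mono_left (nhdsWithin_le_nhds (s := Set.Ioi 0))
      simpa using h2
    have h3 := h1.eventually_lt_const (show G / a < G / a + ε / 2 by linarith)
    have h4 := h2.eventually_const_lt (show G / a - ε / 2 < G / a by linarith)
    have h5 : ∀ᶠ δ : ℝ in 𝓝[>] 0, δ < 1 :=
      (eventually_lt_nhds (show (0 : ℝ) < 1 by norm_num)).filter_mono nhdsWithin_le_nhds
    obtain ⟨δ, hδ⟩ := ((self_mem_nhdsWithin (a := (0 : ℝ)) (s := Set.Ioi 0)) |>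
      fun h => (h3.and (h4.and (h5.and h))).exists)
    exact ⟨δ, hδ.2.2.2, hδ.2.2.1, hδ.1, hδ.2.1⟩
  obtain ⟨δ, hδ0, hδ1, hup, hlow⟩ := hδ
  -- RR asymptotics
  obtain ⟨X, hX⟩ : ∃ X : ℝ, ∀ x, X ≤ x → |RR x * Real.log x - 1| < δ := by
    have := (Metric.tendsto_nhds.1 RR_tendsto) δ hδ0
    simp only [Real.dist_eq] at this
    exact this.exists_forall_of_atTop
  set X' := max X 2 with hX'
  have hX1 : 1 < X' := lt_of_lt_of_le (by norm_num) (le_max_right _ _)
  have hRRu : ∀ x, X' ≤ x → RR x * Real.log x ≤ 1 + δ := fun x hx => by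
    have := abs_lt.1 (hX x ((le_max_left _ _).trans hx)); linarith [this.2]
  have hRRl : ∀ x, X' ≤ x → 1 - δ ≤ RR x * Real.log x := fun x hx => by
    have := abs_lt.1 (hX x ((le_max_left _ _).trans hx)); linarith [this.1]
  -- limits of the bounds
  have hVy : Tendsto (fun p : ℕ => VV p / Real.log p * (p / y p)) atTop (𝓝 (G * a⁻¹)) := by
    refine VV_tendsto.mul ?_
    refine (hy.inv₀ ha.ne').congr fun p => ?_
    rw [inv_div]
  have herr := error_tendsto ha hy hδ0
  have hU : Tendsto (fun p : ℕ => (1 + δ) / (1 - δ) * (VV p / Real.log p * (p / y p)) +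
      (p : ℝ) * (3 * (Real.exp (-(δ * y p / 2)) * ZZ p) + 4 * Real.exp (-(y p)))) atTop
      (𝓝 ((1 + δ) / (1 - δ) * (G * a⁻¹) + 0)) := (hVy.const_mul _).add herr
  have hL : Tendsto (fun p : ℕ => (1 - δ) * (VV p / Real.log p * (p / y p)) -
      (p : ℝ) * (3 * (Real.exp (-(δ * y p / 2)) * ZZ p) + 4 * Real.exp (-(y p)))) atTop
      (𝓝 ((1 - δ) * (G * a⁻¹) - 0)) := (hVy.const_mul _).sub herr
  have hU' := hU.eventually_lt_const (show (1 + δ) / (1 - δ) * (G * a⁻¹) + 0 < G / a + ε / 2 by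
    have : (1 + δ) / (1 - δ) * (G * a⁻¹) + 0 = G * ((1 + δ) / (1 - δ)) / a := by ring
    rw [this]; exact hup)
  have hL' := hL.eventually_const_lt (show G / a - ε / 2 < (1 - δ) * (G * a⁻¹) - 0 by
    have : (1 - δ) * (G * a⁻¹) - 0 = G * (1 - δ) / a := by ring
    rw [this]; exact hlow)
  -- the technical eventual conditions
  have hcond1 : ∀ᶠ p : ℕ in atTop, X' ≤ Real.exp ((1 - δ) * y p) :=
    (Real.tendsto_exp_atTop.comp (hytop.const_mul_atTop (by linarith : 0 < 1 - δ))).eventually_ge_atTop X'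
  have hcond2 : ∀ᶠ p : ℕ in atTop, (1 : ℝ) < y p := hytop.eventually_gt_atTop 1
  have hcond3 : ∀ᶠ p : ℕ in atTop, Real.exp (δ * y p) * (p + 1) ≤ Real.exp (y p) := by
    have h1 : Tendsto (fun p : ℕ => ((p : ℝ) + 1) / Real.exp ((1 - δ) * y p)) atTop (𝓝 0) := by
      have hyge : ∀ᶠ p : ℕ in atTop, a / 2 * p ≤ y p := by
        have h1 := hy.eventually_const_lt (show a / 2 < a by linarith)
        filter_upwards [h1, eventually_ge_atTop 1] with p hp hp1
        have hp0 : (0 : ℝ) < p := by exact_mod_cast hp1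
        rw [lt_div_iff₀ hp0] at hp
        exact hp.le
      set c := (1 - δ) * (a / 2) with hc
      have hc0 : 0 < c := mul_pos (by linarith) (by linarith)
      have h2 : Tendsto (fun x : ℝ => 2 * (x ^ (1 : ℕ) * Real.exp (-(c * x)))) atTop (𝓝 0) := by
        have := Real.tendsto_pow_mul_exp_neg_atTop_nhds_zero 1
        have h2 := (this.comp (tendsto_id.const_mul_atTop hc0)).const_mul (2 * c⁻¹)
        rw [mul_zero] at h2
        refine h2.congr fun x => ?_
        simp only [Function.comp, id]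
        field_simp
      have h3 := h2.comp (tendsto_natCast_atTop_atTop (R := ℝ))
      refine squeeze_zero' (Eventually.of_forall fun p => by positivity) ?_ h3
      filter_upwards [hyge, eventually_ge_atTop 1] with p hp hp1
      have hp1' : (1 : ℝ) ≤ p := by exact_mod_cast hp1
      simp only [Function.comp]
      rw [div_eq_mul_inv, ← Real.exp_neg, pow_one, ← mul_assoc]
      refine mul_le_mul (by linarith) (Real.exp_le_exp.2 ?_) (Real.exp_pos _).le (by positivity)
      rw [hc]
      have := mul_le_mul_of_nonneg_left hp (by linarith : 0 ≤ 1 - δ)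
      nlinarith
    have h2 := h1.eventually_lt_const one_pos
    filter_upwards [h2] with p hp
    rw [div_lt_one (Real.exp_pos _)] at hp
    calc Real.exp (δ * y p) * (p + 1) ≤ Real.exp (δ * y p) * Real.exp ((1 - δ) * y p) :=
          mul_le_mul_of_nonneg_left hp.le (Real.exp_pos _).le
      _ = Real.exp (y p) := by rw [← Real.exp_add]; congr 1; ring
  obtain ⟨P, hP⟩ := (hU'.and (hL'.and (hcond1.and (hcond2.and (hcond3.and
    (eventually_ge_atTop 3)))))).exists_forall_of_atTop
  refine ⟨P, fun p hp => ?_⟩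
  obtain ⟨h1, h2, h3, h4, h5, h6⟩ := hP p hp
  have hp3 : (3 : ℝ) ≤ p := by exact_mod_cast h6
  have hp0 : (0 : ℝ) < p := by linarith
  have hy0 : 0 < y p := by linarith
  have hlog : 1 ≤ Real.log p := by
    rw [Real.le_log_iff_exp_le hp0]
    have := Real.exp_one_lt_d9
    linarith
  have hlog0 : 0 < Real.log p := by linarith
  have hpl : (p : ℝ) / Real.log p ≤ p := div_le_self hp0.le hlog
  have hpl0 : 0 < (p : ℝ) / Real.log p := by positivity
  have hTu := TT_upper (p := p) hδ0 hδ1 hX1 hRRu h3 hy0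
  have hTl := TT_lower (p := p) hδ0 hδ1 hX1 hRRl h3 hy0 h5
  have hWu := window_le_TT (p := p) hy0.le
  have hWl := TT_le_window (p := p) hy0.le
  have hZ := ZZ_nonneg p
  have hE1 : 0 ≤ Real.exp (-(δ * y p / 2)) * ZZ p := by positivity
  have hE2 : 0 ≤ Real.exp (-(y p)) := (Real.exp_pos _).le
  rw [Real.dist_eq, abs_lt]
  constructor
  · have e : (∫ t in Set.Ioc (y p) (y p + 1), ff p t) ≥ (1 - δ) / y p * VV p -
      (3 * (Real.exp (-(δ * y p / 2)) * ZZ p) + 4 * Real.exp (-(y p))) := by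
      have : 1 / y p * (Real.exp (-(δ * y p / 2)) * ZZ p) ≤ 3 * (Real.exp (-(δ * y p / 2)) * ZZ p) := by
        refine mul_le_mul_of_nonneg_right ?_ hE1
        rw [div_le_iff₀ hy0]; linarith
      linarith
    have e2 := mul_le_mul_of_nonneg_right e hpl0.le
    have e3 : (3 * (Real.exp (-(δ * y p / 2)) * ZZ p) + 4 * Real.exp (-(y p))) * (p / Real.log p) ≤
        (p : ℝ) * (3 * (Real.exp (-(δ * y p / 2)) * ZZ p) + 4 * Real.exp (-(y p))) := by
      rw [mul_comm]
      exact mul_le_mul_of_nonneg_right hpl (by positivity)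
    have e4 : (1 - δ) / y p * VV p * (p / Real.log p) = (1 - δ) * (VV p / Real.log p * (p / y p)) := by
      field_simp
    rw [sub_mul, e4] at e2
    linarith
  · have e : (∫ t in Set.Ioc (y p) (y p + 1), ff p t) ≤ (1 + δ) / ((1 - δ) * y p) * VV p +
      (3 * (Real.exp (-(δ * y p / 2)) * ZZ p) + 4 * Real.exp (-(y p))) := by
      linarith
    have e2 := mul_le_mul_of_nonneg_right e hpl0.le
    have e3 : (3 * (Real.exp (-(δ * y p / 2)) * ZZ p) + 4 * Real.exp (-(y p))) * (p / Real.log p) ≤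
        (p : ℝ) * (3 * (Real.exp (-(δ * y p / 2)) * ZZ p) + 4 * Real.exp (-(y p))) := by
      rw [mul_comm]
      exact mul_le_mul_of_nonneg_right hpl (by positivity)
    have h1δ : (0 : ℝ) < 1 - δ := by linarith
    have e4 : (1 + δ) / ((1 - δ) * y p) * VV p * (p / Real.log p) =
        (1 + δ) / (1 - δ) * (VV p / Real.log p * (p / y p)) := by
      field_simp
    rw [add_mul, e4] at e2
    linarith

end Pool.Agent.H305R2
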