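import Mathlib
import Pool.Agent.H305R2.Second2
import Pool.Agent.Helper601.Mertens

set_option autoImplicit false

namespace Pool.Agent.H305R2

open Finset Filter Topology MeasureTheory

lemma theta_le' (N : ℕ) : ∑ p ∈ (Finset.Icc 1 N).filter Nat.Prime, Real.log p ≤ 2 * N := by
  have h := Chebyshev.theta_le_log4_mul_x (x := (N : ℝ)) (Nat.cast_nonneg N)
  have h4 : Real.log 4 ≤ 2 := by
    have : Real.log 4 = 2 * Real.log 2 := by
      rw [show (4 : ℝ) = 2 ^ 2 by norm_num, Real.log_pow]; norm_num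
    rw [this]
    linarith [Real.log_two_lt_d9]
  have e : Chebyshev.theta (N : ℝ) = ∑ p ∈ (Finset.Icc 1 N).filter Nat.Prime, Real.log p := by
    unfold Chebyshev.theta
    rw [Nat.floor_natCast]
    rfl
  rw [← e]
  have : Real.log 4 * (N : ℝ) ≤ 2 * N := by
    have := Nat.cast_nonneg (α := ℝ) N
    gcongr
  linarith

lemma integrableOn_pk (p q : ℕ) (a0 a1 b0 b1 : ℝ) :
    IntegrableOn (Function.uncurry (pk p q)) (Set.Ioc a0 a1 ×ˢ Set.Ico b0 b1) := by
  have h : volume (Set.Ioc a0 a1 ×ˢ Set.Ico b0 b1) < ⊤ := by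
    rw [Measure.volume_eq_prod, Measure.prod_prod]
    simp [Real.volume_Ioc, Real.volume_Ico, ENNReal.mul_lt_top]
  refine Measure.integrableOn_of_bounded (M := 1) h.ne (measurable_pk p q).aestronglyMeasurable ?_
  exact Eventually.of_forall fun z => by rw [Real.norm_eq_abs]; exact abs_pk_le_one p q z.1 z.2

lemma integral_pk (p q : ℕ) (a0 a1 b0 b1 : ℝ) :
    ∫ z in Set.Ioc a0 a1 ×ˢ Set.Ico b0 b1, Function.uncurry (pk p q) z =
      ∫ a in Set.Ioc a0 a1, ∫ b in Set.Ico b0 b1, pk p q a b := by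
  have h := integrableOn_pk p q a0 a1 b0 b1
  rw [Measure.volume_eq_prod] at h ⊢
  rw [setIntegral_prod _ h]
  rfl

lemma pk_comm (p q : ℕ) (a b : ℝ) : pk p q a b = pk q p a b := by
  unfold pk
  ring

theorem second_moment (a0 a1 b0 b1 : ℝ) (ha0 : 0 < a0) (ha : a0 ≤ a1) (hb : b0 ≤ b1) :
    ∃ C : ℝ, ∃ P0 : ℕ, 0 < C ∧ 3 ≤ P0 ∧ ∀ n : ℕ, 1 ≤ n →
      ∫ z in Set.Ioc a0 a1 ×ˢ Set.Ico b0 b1,
        (∑ p ∈ (Finset.Icc P0 n).filter Nat.Prime, gg p (z.1 * p + z.2)) ^ 2 ≤ C * (Real.log n + 1) := by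
  obtain ⟨C, P0, hC, hP0, hd, ho⟩ := J_bounds a0 a1 b0 b1 ha0 ha hb
  obtain ⟨C1, hC1⟩ := Pool.Agent.Helper601.Mertens.mertens_log
  refine ⟨5 * C * (|C1| + 1), P0, by positivity, hP0, fun n hn => ?_⟩
  set T := (Finset.Icc P0 n).filter Nat.Prime with hT
  set R := Set.Ioc a0 a1 ×ˢ Set.Ico b0 b1 with hR
  have e1 : ∀ z : ℝ × ℝ, (∑ p ∈ T, gg p (z.1 * p + z.2)) ^ 2 =
      ∑ p ∈ T, ∑ q ∈ T, Function.uncurry (pk p q) z := by
    intro z
    rw [sq, Finset.sum_mul_sum]
    rfl
  simp only [e1]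
  rw [integral_finsetSum _ (fun p _ => integrable_finsetSum _ fun q _ => integrableOn_pk p q a0 a1 b0 b1)]
  have e2 : ∀ p ∈ T, ∫ z in R, ∑ q ∈ T, Function.uncurry (pk p q) z =
      ∑ q ∈ T, ∫ a in Set.Ioc a0 a1, ∫ b in Set.Ico b0 b1, pk p q a b := by
    intro p _
    rw [integral_finsetSum _ (fun q _ => integrableOn_pk p q a0 a1 b0 b1)]
    exact Finset.sum_congr rfl fun q _ => integral_pk p q a0 a1 b0 b1
  rw [Finset.sum_congr rfl e2]
  -- the pointwise bound
  let B : ℕ → ℕ → ℝ := fun p q => if p < q then C * Real.log p * (Real.log q / q ^ 2) else 0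
  have hb1 : ∀ p ∈ T, ∀ q ∈ T, ∫ a in Set.Ioc a0 a1, ∫ b in Set.Ico b0 b1, pk p q a b ≤
      B p q + B q p + (if p = q then C * (Real.log p / p) else 0) := by
    intro p hp q hq
    have hp' : P0 ≤ p := (Finset.mem_Icc.mp (Finset.mem_filter.mp hp).1).1
    have hq' : P0 ≤ q := (Finset.mem_Icc.mp (Finset.mem_filter.mp hq).1).1
    rcases lt_trichotomy p q with h | h | h
    · have h1 : B p q = C * Real.log p * (Real.log q / q ^ 2) := if_pos h
      have h2 : B q p = 0 := if_neg (by omega)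
      rw [h1, h2, if_neg (by omega)]
      linarith [le_abs_self (∫ a in Set.Ioc a0 a1, ∫ b in Set.Ico b0 b1, pk p q a b), ho p q hp' h]
    · subst h
      have h1 : B p p = 0 := if_neg (by omega)
      rw [h1, if_pos rfl]
      linarith [le_abs_self (∫ a in Set.Ioc a0 a1, ∫ b in Set.Ico b0 b1, pk p p a b), hd p hp']
    · have h1 : B q p = C * Real.log q * (Real.log p / p ^ 2) := if_pos h
      have h2 : B p q = 0 := if_neg (by omega)
      rw [h1, h2, if_neg (by omega)]
      have h3 : ∫ a in Set.Ioc a0 a1, ∫ b in Set.Ico b0 b1, pk p q a b =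
          ∫ a in Set.Ioc a0 a1, ∫ b in Set.Ico b0 b1, pk q p a b := by simp only [pk_comm p q]
      rw [h3]
      linarith [le_abs_self (∫ a in Set.Ioc a0 a1, ∫ b in Set.Ico b0 b1, pk q p a b), ho q p hq' h]
  have hcol : ∀ q ∈ T, ∑ p ∈ T, B p q ≤ 2 * C * (Real.log q / q) := by
    intro q hq
    have hqp : q.Prime := (Finset.mem_filter.mp hq).2
    have hq0 : (0 : ℝ) < q := by exact_mod_cast hqp.pos
    have hq1 : (1 : ℝ) ≤ q := by exact_mod_cast hqp.one_lt.le
    have hlogq : 0 ≤ Real.log q := Real.log_nonneg hq1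
    calc ∑ p ∈ T, B p q = ∑ p ∈ T.filter (fun p => p < q), C * Real.log p * (Real.log q / q ^ 2) :=
          (Finset.sum_filter (fun p => p < q) (fun p : ℕ => C * Real.log p * (Real.log q / (q : ℝ) ^ 2))).symm
      _ ≤ ∑ p ∈ (Finset.Icc 1 q).filter Nat.Prime, C * Real.log p * (Real.log q / q ^ 2) := by
          refine Finset.sum_le_sum_of_subset_of_nonneg ?_ ?_
          · intro p hp
            rw [Finset.mem_filter] at hp
            have h1 := Finset.mem_filter.mp hp.1
            have h2 := Finset.mem_Icc.mp h1.1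
            exact Finset.mem_filter.mpr ⟨Finset.mem_Icc.mpr ⟨h1.2.one_lt.le, hp.2.le⟩, h1.2⟩
          · intro p hp _
            have h1 := Finset.mem_filter.mp hp
            have : 0 ≤ Real.log p := Real.log_nonneg (by exact_mod_cast h1.2.one_lt.le)
            positivity
      _ = C * (∑ p ∈ (Finset.Icc 1 q).filter Nat.Prime, Real.log p) * (Real.log q / q ^ 2) := by
          rw [← Finset.sum_mul, ← Finset.mul_sum]
      _ ≤ C * (2 * q) * (Real.log q / q ^ 2) := by
          gcongr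
          exact theta_le' q
      _ = 2 * C * (Real.log q / q) := by
          field_simp
  have hM : ∑ q ∈ T, Real.log q / q ≤ Real.log n + |C1| := by
    have h1 := hC1 n hn
    have h2 : ∑ q ∈ T, Real.log q / q ≤ ∑ p ∈ (Finset.Icc 1 n).filter Nat.Prime, Real.log p / p := by
      refine Finset.sum_le_sum_of_subset_of_nonneg ?_ ?_
      · intro p hp
        have h1 := Finset.mem_filter.mp hp
        have h2 := Finset.mem_Icc.mp h1.1
        exact Finset.mem_filter.mpr ⟨Finset.mem_Icc.mpr ⟨h1.2.one_lt.le, h2.2⟩, h1.2⟩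
      · intro p hp _
        have h1 := Finset.mem_filter.mp hp
        have : 0 ≤ Real.log p := Real.log_nonneg (by exact_mod_cast h1.2.one_lt.le)
        positivity
    have h3 := le_abs_self (∑ p ∈ (Finset.Icc 1 n).filter Nat.Prime, Real.log p / p - Real.log n)
    have h4 := le_abs_self C1
    linarith
  calc ∑ p ∈ T, ∑ q ∈ T, ∫ a in Set.Ioc a0 a1, ∫ b in Set.Ico b0 b1, pk p q a b
      ≤ ∑ p ∈ T, ∑ q ∈ T, (B p q + B q p + (if p = q then C * (Real.log p / p) else 0)) :=
        Finset.sum_le_sum fun p hp => Finset.sum_le_sum fun q hq => hb1 p hp q hq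
    _ = ∑ q ∈ T, ∑ p ∈ T, B p q + ∑ p ∈ T, ∑ q ∈ T, B q p +
          ∑ p ∈ T, ∑ q ∈ T, (if p = q then C * (Real.log p / p) else 0) := by
        simp only [Finset.sum_add_distrib]
        rw [Finset.sum_comm (f := fun p q => B p q)]
    _ ≤ ∑ q ∈ T, 2 * C * (Real.log q / q) + ∑ q ∈ T, 2 * C * (Real.log q / q) +
          ∑ q ∈ T, C * (Real.log q / q) := by
        refine add_le_add (add_le_add (Finset.sum_le_sum hcol) (Finset.sum_le_sum hcol)) ?_
        refine Finset.sum_le_sum fun p hp => ?_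
        rw [Finset.sum_ite_eq, if_pos hp]
    _ = 5 * C * ∑ q ∈ T, Real.log q / q := by
        simp only [← Finset.mul_sum]
        ring
    _ ≤ 5 * C * (Real.log n + |C1|) := by gcongr
    _ ≤ 5 * C * (|C1| + 1) * (Real.log n + 1) := by
        have h1 : 0 ≤ Real.log n := Real.log_nonneg (by exact_mod_cast hn)
        have h2 : 0 ≤ |C1| := abs_nonneg _
        have h3 : Real.log n + |C1| ≤ (|C1| + 1) * (Real.log n + 1) := by nlinarith
        calc 5 * C * (Real.log n + |C1|) ≤ 5 * C * ((|C1| + 1) * (Real.log n + 1)) := by gcongr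
          _ = _ := by ring

end Pool.Agent.H305R2
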