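import Mathlib
import Pool.Agent.H305R2.AE1

set_option autoImplicit false

namespace Pool.Agent.H305R2

open Finset Filter Topology MeasureTheory

lemma sum_range_if (r : ℕ → ℝ) (n : ℕ) :
    ∑ i ∈ Finset.range (n + 1), (if i.Prime then r i else 0) = ∑ p ∈ (Finset.Icc 1 n).filter Nat.Prime, r p := by
  rw [← Finset.sum_filter]
  refine Finset.sum_congr ?_ fun _ _ => rfl
  ext p
  simp only [Finset.mem_filter, Finset.mem_range, Finset.mem_Icc]
  constructor
  · rintro ⟨h1, h2⟩
    exact ⟨⟨h2.one_lt.le, by omega⟩, h2⟩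
  · rintro ⟨h1, h2⟩
    exact ⟨by omega, h2⟩

lemma log_nat_tendsto : Tendsto (fun n : ℕ => Real.log n) atTop atTop :=
  Real.tendsto_log_atTop.comp tendsto_natCast_atTop_atTop

lemma mertens_ratio : Tendsto (fun n : ℕ => (∑ p ∈ (Finset.Icc 1 n).filter Nat.Prime, Real.log p / p) / Real.log n)
    atTop (𝓝 1) := by
  obtain ⟨C1, hC1⟩ := Pool.Agent.Helper601.Mertens.mertens_log
  have h1 : Tendsto (fun n : ℕ => C1 / Real.log n) atTop (𝓝 0) := log_nat_tendsto.const_div_atTop C1
  have h2 : Tendsto (fun n : ℕ => (∑ p ∈ (Finset.Icc 1 n).filter Nat.Prime, Real.log p / p) / Real.log n - 1)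
      atTop (𝓝 0) := by
    refine squeeze_zero_norm' ?_ h1
    filter_upwards [eventually_ge_atTop 3] with n hn
    have hlog : 0 < Real.log n := Real.log_pos (by
      have : (3 : ℝ) ≤ n := by exact_mod_cast hn
      linarith)
    have h3 := hC1 n (by omega)
    have e : (∑ p ∈ (Finset.Icc 1 n).filter Nat.Prime, Real.log p / p) / Real.log n - 1 =
        ((∑ p ∈ (Finset.Icc 1 n).filter Nat.Prime, Real.log p / p) - Real.log n) / Real.log n := by
      field_simp
    rw [e, Real.norm_eq_abs, abs_div, abs_of_pos hlog]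
    gcongr
  have h4 := h2.add_const 1
  simpa using h4

/-- weighted Cesaro theorem for the weights `log p / p` -/
lemma cesaro (r : ℕ → ℝ) (L : ℝ) (hr : Tendsto (fun p : ℕ => r p * (p / Real.log p)) atTop (𝓝 L)) :
    Tendsto (fun n : ℕ => (∑ p ∈ (Finset.Icc 1 n).filter Nat.Prime, r p) / Real.log n) atTop (𝓝 L) := by
  set g : ℕ → ℝ := fun i => if i.Prime then Real.log i / i else 0 with hg
  set f : ℕ → ℝ := fun i => if i.Prime then r i - L * (Real.log i / i) else 0 with hf
  have hg0 : 0 ≤ g := by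
    intro i
    simp only [hg, Pi.zero_apply]
    split_ifs with h
    · have : 0 ≤ Real.log i := Real.log_nonneg (by exact_mod_cast h.one_lt.le)
      positivity
    · exact le_rfl
  have hsumg : ∀ n, ∑ i ∈ Finset.range (n + 1), g i = ∑ p ∈ (Finset.Icc 1 n).filter Nat.Prime, Real.log p / p :=
    fun n => sum_range_if (fun p => Real.log p / p) n
  have hgtop : Tendsto (fun n => ∑ i ∈ Finset.range n, g i) atTop atTop := by
    rw [← tendsto_add_atTop_iff_nat 1]
    simp only [hsumg]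
    have h1 := mertens_ratio.pos_mul_atTop one_pos log_nat_tendsto
    refine h1.congr' ?_
    filter_upwards [eventually_ge_atTop 3] with n hn
    have hlog : 0 < Real.log n := Real.log_pos (by
      have : (3 : ℝ) ≤ n := by exact_mod_cast hn
      linarith)
    field_simp
  have hfg : f =o[atTop] g := by
    rw [Asymptotics.isLittleO_iff]
    intro c hc
    have h1 : ∀ᶠ p : ℕ in atTop, |r p * (p / Real.log p) - L| < c := by
      have := (Metric.tendsto_nhds.mp hr) c hc
      simpa [Real.dist_eq] using this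
    filter_upwards [h1, eventually_ge_atTop 3] with p hp hp3
    simp only [hf, hg]
    split_ifs with h
    · have hp3' : (3 : ℝ) ≤ p := by exact_mod_cast hp3
      have hp0 : (0 : ℝ) < p := by linarith
      have hlog : 0 < Real.log p := Real.log_pos (by linarith)
      have e : r p - L * (Real.log p / p) = (r p * (p / Real.log p) - L) * (Real.log p / p) := by
        field_simp
      rw [e, norm_mul, Real.norm_eq_abs]
      gcongr
    · simp
  have hsum := hfg.sum_range hg0 hgtop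
  have hsum2 : (fun n => ∑ i ∈ Finset.range (n + 1), f i) =o[atTop] fun n => ∑ i ∈ Finset.range (n + 1), g i :=
    hsum.comp_tendsto (tendsto_add_atTop_nat 1)
  have h2 := hsum2.tendsto_div_nhds_zero
  have hsumf : ∀ n, ∑ i ∈ Finset.range (n + 1), f i =
      ∑ p ∈ (Finset.Icc 1 n).filter Nat.Prime, r p - L * ∑ p ∈ (Finset.Icc 1 n).filter Nat.Prime, Real.log p / p := by
    intro n
    rw [sum_range_if (fun p => r p - L * (Real.log p / p)) n, Finset.sum_sub_distrib, ← Finset.mul_sum]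
  simp only [hsumf, hsumg] at h2
  have h3 := (h2.mul mertens_ratio).add (mertens_ratio.const_mul L)
  simp only [zero_add, mul_one] at h3
  refine h3.congr' ?_
  have hev : ∀ᶠ n : ℕ in atTop, 1 / 2 < (∑ p ∈ (Finset.Icc 1 n).filter Nat.Prime, Real.log p / p) / Real.log n :=
    mertens_ratio.eventually (lt_mem_nhds (by norm_num))
  filter_upwards [eventually_ge_atTop 3, hev] with n hn hn2
  have hlog : 0 < Real.log n := Real.log_pos (by
    have : (3 : ℝ) ≤ n := by exact_mod_cast hn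
    linarith)
  have hG : (∑ p ∈ (Finset.Icc 1 n).filter Nat.Prime, Real.log p / p) ≠ 0 := by
    intro h
    rw [h, zero_div] at hn2
    norm_num at hn2
  field_simp
  ring

/-- counting function in logarithmic coordinates -/
noncomputable def CC (a b : ℝ) (n : ℕ) : ℝ := ∑ p ∈ (Finset.Icc 1 n).filter Nat.Prime, ff p (a * p + b)

lemma CC_mono (a b : ℝ) : Monotone (CC a b) := by
  intro m n h
  unfold CC
  refine Finset.sum_le_sum_of_subset_of_nonneg ?_ fun p _ _ => ff_nonneg p _
  exact Finset.filter_subset_filter _ (Finset.Icc_subset_Icc_right h)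

/-- the deterministic main term -/
lemma main_term {a : ℝ} (ha : 0 < a) (b : ℝ) :
    Tendsto (fun n : ℕ => (∑ p ∈ (Finset.Icc 1 n).filter Nat.Prime, LL p (a * p + b)) / Real.log n) atTop
      (𝓝 (Real.exp Real.eulerMascheroniConstant / a)) := by
  refine cesaro (fun p => LL p (a * p + b)) _ ?_
  refine window_asymp ha (y := fun p => a * p + b) ?_
  have h1 : Tendsto (fun p : ℕ => a + b * (1 / (p : ℝ))) atTop (𝓝 (a + b * 0)) :=
    tendsto_const_nhds.add ((tendsto_one_div_atTop_nhds_zero_nat (𝕜 := ℝ)).const_mul b)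
  rw [mul_zero, add_zero] at h1
  refine h1.congr' ?_
  filter_upwards [eventually_ge_atTop 1] with p hp
  have hp0 : (0 : ℝ) < p := by exact_mod_cast hp
  field_simp

/-- difference between the counting function and its main term -/
lemma CC_sub (P0 : ℕ) (z : ℝ × ℝ) (n : ℕ) :
    |CC z.1 z.2 n - (∑ p ∈ (Finset.Icc 1 n).filter Nat.Prime, LL p (z.1 * p + z.2)) - SS P0 n z| ≤ P0 + 1 := by
  have h1 : CC z.1 z.2 n - (∑ p ∈ (Finset.Icc 1 n).filter Nat.Prime, LL p (z.1 * p + z.2)) =
      ∑ p ∈ (Finset.Icc 1 n).filter Nat.Prime, gg p (z.1 * p + z.2) := by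
    unfold CC gg
    rw [Finset.sum_sub_distrib]
  have h2 : ∑ p ∈ (Finset.Icc 1 n).filter Nat.Prime, gg p (z.1 * p + z.2) =
      SS P0 n z + ∑ p ∈ ((Finset.Icc 1 n).filter Nat.Prime).filter (fun p => p < P0), gg p (z.1 * p + z.2) := by
    rw [← Finset.sum_filter_add_sum_filter_not ((Finset.Icc 1 n).filter Nat.Prime) (fun p => p < P0), add_comm]
    congr 1
    unfold SS
    refine Finset.sum_congr ?_ fun _ _ => rfl
    ext p
    simp only [Finset.mem_filter, Finset.mem_Icc, not_lt]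
    constructor
    · rintro ⟨⟨⟨h1, h2⟩, h3⟩, h4⟩
      exact ⟨⟨h4, h2⟩, h3⟩
    · rintro ⟨⟨h1, h2⟩, h3⟩
      exact ⟨⟨⟨h3.one_lt.le, h2⟩, h3⟩, h1⟩
  rw [h1, h2, add_sub_cancel_left]
  refine (Finset.abs_sum_le_sum_abs _ _).trans ?_
  calc ∑ p ∈ ((Finset.Icc 1 n).filter Nat.Prime).filter (fun p => p < P0), |gg p (z.1 * p + z.2)|
      ≤ ∑ p ∈ ((Finset.Icc 1 n).filter Nat.Prime).filter (fun p => p < P0), (1 : ℝ) :=
        Finset.sum_le_sum fun p _ => abs_gg_le_one _ _
    _ ≤ ∑ p ∈ Finset.range (P0 + 1), (1 : ℝ) := by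
        refine Finset.sum_le_sum_of_subset_of_nonneg ?_ fun _ _ _ => zero_le_one
        intro p hp
        have := (Finset.mem_filter.mp hp).2
        exact Finset.mem_range.mpr (by omega)
    _ = P0 + 1 := by simp

/-- convergence along the squares -/
lemma along_squares {z : ℝ × ℝ} (hz : 0 < z.1) {P0 : ℕ}
    (hS : Tendsto (fun k : ℕ => SS P0 (smp (k ^ 2)) z / ((k : ℝ) ^ 2)) atTop (𝓝 0)) :
    Tendsto (fun k : ℕ => CC z.1 z.2 (smp (k ^ 2)) / ((k ^ 2 : ℕ) : ℝ)) atTop
      (𝓝 (Real.exp Real.eulerMascheroniConstant / z.1)) := by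
  set L := Real.exp Real.eulerMascheroniConstant / z.1 with hL
  have hsq : Tendsto (fun k : ℕ => k ^ 2) atTop atTop := tendsto_pow_atTop two_ne_zero
  have h1 := ((main_term hz z.2).comp tendsto_smp).comp hsq
  have h2 := log_smp_div.comp hsq
  have h3 := h1.mul h2
  rw [mul_one] at h3
  have h4 : Tendsto (fun k : ℕ => ((P0 : ℝ) + 1) / ((k ^ 2 : ℕ) : ℝ)) atTop (𝓝 0) :=
    (tendsto_natCast_atTop_atTop.comp hsq).const_div_atTop _
  have h5 : Tendsto (fun k : ℕ => (CC z.1 z.2 (smp (k ^ 2)) -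
      (∑ p ∈ (Finset.Icc 1 (smp (k ^ 2))).filter Nat.Prime, LL p (z.1 * p + z.2)) - SS P0 (smp (k ^ 2)) z) /
        ((k ^ 2 : ℕ) : ℝ)) atTop (𝓝 0) := by
    refine squeeze_zero_norm (fun k => ?_) h4
    rw [Real.norm_eq_abs, abs_div, abs_of_nonneg (show (0 : ℝ) ≤ ((k ^ 2 : ℕ) : ℝ) from Nat.cast_nonneg _)]
    exact div_le_div_of_nonneg_right (CC_sub P0 z _) (Nat.cast_nonneg _)
  have h6 := (h5.add h3).add hS
  rw [zero_add, add_zero] at h6
  refine h6.congr' ?_
  filter_upwards [eventually_ge_atTop 2] with k hk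
  have hk0 : (2 : ℝ) ≤ k := by exact_mod_cast hk
  have hlog : 0 < Real.log (smp (k ^ 2)) := by
    have := log_smp_ge (k ^ 2)
    push_cast at this
    nlinarith
  simp only [Function.comp]
  push_cast
  field_simp
  ring

/-- from the sampling points to all integers -/
lemma all_n {a b L : ℝ} (h : Tendsto (fun k : ℕ => CC a b (smp (k ^ 2)) / ((k ^ 2 : ℕ) : ℝ)) atTop (𝓝 L)) :
    Tendsto (fun n : ℕ => CC a b n / Real.log n) atTop (𝓝 L) := by
  have h1 : Tendsto (fun m : ℕ => CC a b (smp m) / (m : ℝ)) atTop (𝓝 L) := by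
    refine tendsto_div_of_monotone_of_exists_subseq_tendsto_div (fun m => CC a b (smp m)) L
      (fun m n hmn => CC_mono a b (smp_mono hmn)) fun c hc => ?_
    refine ⟨fun k => k ^ 2, ?_, tendsto_pow_atTop two_ne_zero, h⟩
    have h2 : Tendsto (fun k : ℕ => (1 + 1 / (k : ℝ)) ^ 2) atTop (𝓝 ((1 + 0) ^ 2)) :=
      ((tendsto_one_div_atTop_nhds_zero_nat (𝕜 := ℝ)).const_add 1).pow 2
    have h3 : ∀ᶠ k : ℕ in atTop, (1 + 1 / (k : ℝ)) ^ 2 < c := h2.eventually (gt_mem_nhds (by simpa using hc))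
    filter_upwards [h3, eventually_ge_atTop 1] with k hk hk1
    have hk0 : (0 : ℝ) < k := by exact_mod_cast hk1
    have e : (((k + 1) ^ 2 : ℕ) : ℝ) = (1 + 1 / (k : ℝ)) ^ 2 * ((k ^ 2 : ℕ) : ℝ) := by
      push_cast
      field_simp
    rw [e]
    gcongr
  -- integer part of the logarithm
  set m : ℕ → ℕ := fun n => ⌊Real.log n⌋₊ with hm
  have hmt : Tendsto m atTop atTop := tendsto_nat_floor_atTop.comp log_nat_tendsto
  have hlow : Tendsto (fun n : ℕ => CC a b (smp (m n)) / ((m n : ℝ) + 1)) atTop (𝓝 L) := by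
    have h2 : Tendsto (fun k : ℕ => CC a b (smp k) / (k : ℝ) * ((k : ℝ) / (k + 1))) atTop (𝓝 (L * 1)) :=
      h1.mul (tendsto_natCast_div_add_atTop (1 : ℝ))
    rw [mul_one] at h2
    refine (h2.comp hmt).congr' ?_
    filter_upwards [hmt.eventually (eventually_ge_atTop 1)] with n hn
    have : (0 : ℝ) < m n := by exact_mod_cast hn
    simp only [Function.comp]
    field_simp
  have hup : Tendsto (fun n : ℕ => CC a b (smp (m n + 1)) / (m n : ℝ)) atTop (𝓝 L) := by
    have h2 : Tendsto (fun k : ℕ => CC a b (smp (k + 1)) / ((k + 1 : ℕ) : ℝ) * (1 + 1 / (k : ℝ))) atTop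
        (𝓝 (L * (1 + 0))) :=
      ((tendsto_add_atTop_iff_nat (f := fun m : ℕ => CC a b (smp m) / (m : ℝ)) 1).mpr h1).mul
        ((tendsto_one_div_atTop_nhds_zero_nat (𝕜 := ℝ)).const_add 1)
    rw [add_zero, mul_one] at h2
    refine (h2.comp hmt).congr' ?_
    filter_upwards [hmt.eventually (eventually_ge_atTop 1)] with n hn
    have : (0 : ℝ) < m n := by exact_mod_cast hn
    simp only [Function.comp]
    push_cast
    field_simp
  refine tendsto_of_tendsto_of_tendsto_of_le_of_le' hlow hup ?_ ?_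
  · filter_upwards [eventually_ge_atTop 3] with n hn
    have hn0 : (3 : ℝ) ≤ n := by exact_mod_cast hn
    have hlog : 0 < Real.log n := Real.log_pos (by linarith)
    have h2 : Real.log n < m n + 1 := Nat.lt_floor_add_one _
    have h3 : smp (m n) ≤ n := by
      have h4 : Real.exp (m n : ℝ) ≤ n := by
        rw [← Real.le_log_iff_exp_le (by linarith)]
        exact Nat.floor_le hlog.le
      unfold smp
      exact Nat.floor_le_of_le h4
    have h5 : 0 ≤ CC a b n := Finset.sum_nonneg fun p _ => ff_nonneg p _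
    exact div_le_div₀ h5 (CC_mono a b h3) hlog h2.le
  · filter_upwards [eventually_ge_atTop 3, hmt.eventually (eventually_ge_atTop 1)] with n hn hmn
    have hn0 : (3 : ℝ) ≤ n := by exact_mod_cast hn
    have hlog : 0 < Real.log n := Real.log_pos (by linarith)
    have hm0 : (0 : ℝ) < m n := by exact_mod_cast hmn
    have h2 : (m n : ℝ) ≤ Real.log n := Nat.floor_le hlog.le
    have h3 : n ≤ smp (m n + 1) := by
      have h4 : (n : ℝ) ≤ Real.exp ((m n + 1 : ℕ) : ℝ) := by
        rw [← Real.log_le_iff_le_exp (by linarith)]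
        push_cast
        exact (Nat.lt_floor_add_one _).le
      unfold smp
      exact Nat.le_floor h4
    have h5 : 0 ≤ CC a b (smp (m n + 1)) := Finset.sum_nonneg fun p _ => ff_nonneg p _
    exact div_le_div₀ h5 (CC_mono a b h3) hm0 h2

/-- The almost everywhere law in logarithmic coordinates. -/
theorem ae_law_log : ∀ᵐ z : ℝ × ℝ, 0 < z.1 →
    Tendsto (fun n : ℕ => CC z.1 z.2 n / Real.log n) atTop
      (𝓝 (Real.exp Real.eulerMascheroniConstant / z.1)) := by
  have h1 : ∀ j : ℕ, ∀ᵐ z : ℝ × ℝ, z ∈ Set.Ioc (1 / ((j : ℝ) + 1)) ((j : ℝ) + 1) ×ˢ Set.Ico (-((j : ℝ) + 1)) ((j : ℝ) + 1) →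
      Tendsto (fun n : ℕ => CC z.1 z.2 n / Real.log n) atTop
        (𝓝 (Real.exp Real.eulerMascheroniConstant / z.1)) := by
    intro j
    have hj0 : (0 : ℝ) ≤ j := Nat.cast_nonneg j
    have hj1 : 1 / ((j : ℝ) + 1) ≤ 1 := by rw [div_le_one (by positivity)]; linarith
    obtain ⟨P0, hP0, hae⟩ := ae_SS (1 / ((j : ℝ) + 1)) ((j : ℝ) + 1) (-((j : ℝ) + 1)) ((j : ℝ) + 1)
      (by positivity) (by linarith) (by linarith)
    rw [ae_restrict_iff' (measurableSet_Ioc.prod measurableSet_Ico)] at hae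
    filter_upwards [hae] with z hz hzR
    have hz0 : 0 < z.1 := lt_trans (by positivity) hzR.1.1
    exact all_n (along_squares hz0 (hz hzR))
  filter_upwards [ae_all_iff.mpr h1] with z hz hz0
  obtain ⟨j, hj⟩ := exists_nat_gt (max (1 / z.1) (max z.1 |z.2|))
  have hj1 : 1 / z.1 < j := lt_of_le_of_lt (le_max_left _ _) hj
  have hj2 : z.1 < j := lt_of_le_of_lt ((le_max_left _ _).trans (le_max_right _ _)) hj
  have hj3 : |z.2| < j := lt_of_le_of_lt ((le_max_right _ _).trans (le_max_right _ _)) hj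
  have hj0 : (0 : ℝ) < j := hz0.trans hj2
  refine hz j ⟨⟨?_, by linarith⟩, ⟨?_, ?_⟩⟩
  · rw [div_lt_iff₀ (by linarith)]
    rw [div_lt_iff₀ hz0] at hj1
    nlinarith
  · linarith [neg_abs_le z.2]
  · linarith [le_abs_self z.2]

end Pool.Agent.H305R2
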